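import Mathlib

/-!
# Hitting versus packing for squares met by a common line (MP_cfdc1c_co)
-/

set_option autoImplicit false

namespace Pool.Agent.Results.MP_cfdc1c_co.CommonLine

/-- For a unit vector `e` and `0 < a`: the closed solid square with centre `c` and side length `2 * a`
whose sides are orthogonal to `e` and to `(-e.2, e.1)`. -/
def sq (c e : ℝ × ℝ) (a : ℝ) : Set (ℝ × ℝ) :=
  {z | |(z.1 - c.1) * e.1 + (z.2 - c.2) * e.2| ≤ a ∧ |(z.2 - c.2) * e.1 - (z.1 - c.1) * e.2| ≤ a}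

/-- The point with parameter `t` of the line through `o` with direction `d`. -/
def pt (o d : ℝ × ℝ) (t : ℝ) : ℝ × ℝ := (o.1 + t * d.1, o.2 + t * d.2)

/-- `S` is a square whose centre lies on the line through `o` with direction `d`. -/
def Centred (o d : ℝ × ℝ) (S : Set (ℝ × ℝ)) : Prop :=
  ∃ (s : ℝ) (e : ℝ × ℝ) (a : ℝ), e.1 ^ 2 + e.2 ^ 2 = 1 ∧ 0 < a ∧ S = sq (pt o d s) e a

/-- `S` is a square and the line through `o` with direction `d` meets two opposite sides of it. -/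
def Cut (o d : ℝ × ℝ) (S : Set (ℝ × ℝ)) : Prop :=
  ∃ (c e : ℝ × ℝ) (a : ℝ), e.1 ^ 2 + e.2 ^ 2 = 1 ∧ 0 < a ∧ S = sq c e a ∧
    ∃ s t : ℝ, pt o d s ∈ S ∧ pt o d t ∈ S ∧
      ((pt o d s).1 - c.1) * e.1 + ((pt o d s).2 - c.2) * e.2 = -a ∧
      ((pt o d t).1 - c.1) * e.1 + ((pt o d t).2 - c.2) * e.2 = a

/-- The packing number: the largest number of pairwise disjoint members of `F`. -/
noncomputable def nu (F : Finset (Set (ℝ × ℝ))) : ℕ :=
  sSup {k | ∃ G : Finset (Set (ℝ × ℝ)), G ⊆ F ∧ (∀ S ∈ G, ∀ T ∈ G, S ≠ T → Disjoint S T) ∧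
    G.card = k}

/-- The hitting number: the smallest number of points such that every member of `F` contains one
of them. -/
noncomputable def tau (F : Finset (Set (ℝ × ℝ))) : ℕ :=
  sInf {k | ∃ P : Finset (ℝ × ℝ), (∀ S ∈ F, ∃ z ∈ P, z ∈ S) ∧ P.card = k}

/-- The greedy argument: smallest square first. -/
theorem greedy {K : ℕ} (a : Set (ℝ × ℝ) → ℝ) (F : Finset (Set (ℝ × ℝ))) :
    (∀ S ∈ F, S.Nonempty) →
    (∀ S ∈ F, ∃ Q : Finset (ℝ × ℝ), Q.card ≤ K ∧
      ∀ T ∈ F, a S ≤ a T → ¬ Disjoint S T → ∃ z ∈ Q, z ∈ T) →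
    ∃ G ⊆ F, ∃ P : Finset (ℝ × ℝ), (∀ S ∈ G, ∀ T ∈ G, S ≠ T → Disjoint S T) ∧
      (∀ S ∈ F, ∃ z ∈ P, z ∈ S) ∧ P.card ≤ K * G.card := by
  classical
  induction F using Finset.strongInduction with
  | H F ih =>
    intro hne hQ
    rcases F.eq_empty_or_nonempty with h0 | h0
    · subst h0
      exact ⟨∅, le_rfl, ∅, by simp, by simp, by simp⟩
    · obtain ⟨S, hS, hmin⟩ := Finset.exists_min_image F a h0
      obtain ⟨Q, hQK, hQT⟩ := hQ S hS
      set F' := F.filter (fun T => Disjoint S T) with hF'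
      have hSF' : S ∉ F' := by
        intro h
        have h1 : Disjoint S S := (Finset.mem_filter.mp h).2
        have h2 := hne S hS
        rw [disjoint_self] at h1
        rw [h1] at h2
        exact Set.not_nonempty_empty h2
      have hsub : F' ⊆ F := Finset.filter_subset _ _
      have hss : F' ⊂ F := by
        refine Finset.ssubset_iff_subset_ne.mpr ⟨hsub, ?_⟩
        intro h
        exact hSF' (h ▸ hS)
      obtain ⟨G, hG, P, hGd, hP, hc⟩ := ih F' hss (fun T hT => hne T (hsub hT)) (fun T hT => by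
        obtain ⟨Q', h1, h2⟩ := hQ T (hsub hT)
        exact ⟨Q', h1, fun U hU => h2 U (hsub hU)⟩)
      refine ⟨insert S G, ?_, Q ∪ P, ?_, ?_, ?_⟩
      · intro T hT
        rcases Finset.mem_insert.mp hT with rfl | h
        · exact hS
        · exact hsub (hG h)
      · intro A hA B hB hAB
        rcases Finset.mem_insert.mp hA with rfl | h
        · rcases Finset.mem_insert.mp hB with rfl | h'
          · exact absurd rfl hAB
          · exact (Finset.mem_filter.mp (hG h')).2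
        · rcases Finset.mem_insert.mp hB with rfl | h'
          · exact ((Finset.mem_filter.mp (hG h)).2).symm
          · exact hGd A h B h' hAB
      · intro T hT
        by_cases hd : Disjoint S T
        · obtain ⟨z, hz, hzT⟩ := hP T (Finset.mem_filter.mpr ⟨hT, hd⟩)
          exact ⟨z, Finset.mem_union_right _ hz, hzT⟩
        · obtain ⟨z, hz, hzT⟩ := hQT T hT (hmin T hT) hd
          exact ⟨z, Finset.mem_union_left _ hz, hzT⟩
      · have hnot : S ∉ G := fun h => hSF' (hG h)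
        rw [Finset.card_insert_of_notMem hnot]
        have h1 := Finset.card_union_le Q P
        have h2 : K * (G.card + 1) = K + K * G.card := by ring
        omega

theorem nu_tau {K : ℕ} (F : Finset (Set (ℝ × ℝ)))
    (h : ∃ G ⊆ F, ∃ P : Finset (ℝ × ℝ), (∀ S ∈ G, ∀ T ∈ G, S ≠ T → Disjoint S T) ∧
      (∀ S ∈ F, ∃ z ∈ P, z ∈ S) ∧ P.card ≤ K * G.card) : tau F ≤ K * nu F := by
  obtain ⟨G, hG, P, hGd, hP, hc⟩ := h
  have h1 : tau F ≤ P.card := Nat.sInf_le ⟨P, hP, rfl⟩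
  have h2 : G.card ≤ nu F := by
    refine le_csSup ⟨F.card, ?_⟩ ⟨G, hG, hGd, rfl⟩
    rintro k ⟨G', hG', -, rfl⟩
    exact Finset.card_le_card hG'
  exact h1.trans (hc.trans (Nat.mul_le_mul_left _ h2))

/-- The chord cut out of a square by the `x`-axis, in coordinates, when `p > 0`. -/
theorem core_pos {p q a xc yc y z : ℝ} (hpq : p ^ 2 + q ^ 2 = 1) (ha : 0 < a) (hp : 0 < p)
    (hy : (y - xc) * p - yc * q = -a) (hz : (z - xc) * p - yc * q = a)
    (hy' : |-(y - xc) * q - yc * p| ≤ a) (hz' : |-(z - xc) * q - yc * p| ≤ a) :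
    ∃ l r : ℝ, 2 * a ≤ r - l ∧
      (∀ t, l ≤ t → t ≤ r → |(t - xc) * p - yc * q| ≤ a ∧ |-(t - xc) * q - yc * p| ≤ a) ∧
      (∀ X Y, |(X - xc) * p + (Y - yc) * q| ≤ a → |-(X - xc) * q + (Y - yc) * p| ≤ a →
        ∃ t, l ≤ t ∧ t ≤ r ∧ |t - X| ≤ |Y|) := by
  have h1 : (z - y) * p = 2 * a := by linarith
  have hzy : 0 < z - y := by
    by_contra h
    push Not at h
    have : (z - y) * p ≤ 0 := mul_nonpos_of_nonpos_of_nonneg h hp.le
    linarith
  have hp1 : p ≤ 1 := by nlinarith [sq_nonneg q]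
  rw [abs_le] at hy' hz'
  have hq : |q| ≤ p := by
    have h2 : (z - y) * q ≤ (z - y) * p := by
      rw [h1]
      linarith [hy'.1, hy'.2, hz'.1, hz'.2]
    have h3 : -((z - y) * p) ≤ (z - y) * q := by
      rw [h1]
      linarith [hy'.1, hy'.2, hz'.1, hz'.2]
    rw [abs_le]
    constructor
    · by_contra h
      push Not at h
      have := mul_lt_mul_of_pos_left h hzy
      linarith
    · exact le_of_mul_le_mul_left h2 hzy
  refine ⟨y, z, ?_, ?_, ?_⟩
  · nlinarith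
  · intro t h2 h3
    have e1 : 0 ≤ (t - y) * p := mul_nonneg (by linarith) hp.le
    have e2 : 0 ≤ (z - t) * p := mul_nonneg (by linarith) hp.le
    refine ⟨abs_le.mpr ⟨by linarith, by linarith⟩, ?_⟩
    rcases le_total 0 q with h | h
    · have e3 : 0 ≤ (t - y) * q := mul_nonneg (by linarith) h
      have e4 : 0 ≤ (z - t) * q := mul_nonneg (by linarith) h
      exact abs_le.mpr ⟨by linarith [hz'.1], by linarith [hy'.2]⟩
    · have e3 : (t - y) * q ≤ 0 := mul_nonpos_of_nonneg_of_nonpos (by linarith) h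
      have e4 : (z - t) * q ≤ 0 := mul_nonpos_of_nonneg_of_nonpos (by linarith) h
      exact abs_le.mpr ⟨by linarith [hy'.1], by linarith [hz'.2]⟩
  · intro X Y hu _
    rw [abs_le] at hu
    have hYq : |Y * q| ≤ |Y| * p := by
      rw [abs_mul]
      exact mul_le_mul_of_nonneg_left hq (abs_nonneg _)
    rw [abs_le] at hYq
    rcases lt_or_ge X y with h2 | h2
    · refine ⟨y, le_rfl, by linarith, ?_⟩
      rw [abs_of_pos (by linarith)]
      have h3 : (y - X) * p ≤ |Y| * p := by linarith [hu.1, hYq.2]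
      exact le_of_mul_le_mul_right h3 hp
    · rcases lt_or_ge z X with h3 | h3
      · refine ⟨z, by linarith, le_rfl, ?_⟩
        rw [abs_of_neg (by linarith)]
        have h4 : (X - z) * p ≤ |Y| * p := by linarith [hu.2, hYq.1]
        have := le_of_mul_le_mul_right h4 hp
        linarith
      · exact ⟨X, h2, h3, by simp⟩

/-- The chord cut out of a square by the `x`-axis, in coordinates. -/
theorem core {p q a xc yc y z : ℝ} (hpq : p ^ 2 + q ^ 2 = 1) (ha : 0 < a)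
    (hy : (y - xc) * p - yc * q = -a) (hz : (z - xc) * p - yc * q = a)
    (hy' : |-(y - xc) * q - yc * p| ≤ a) (hz' : |-(z - xc) * q - yc * p| ≤ a) :
    ∃ l r : ℝ, 2 * a ≤ r - l ∧
      (∀ t, l ≤ t → t ≤ r → |(t - xc) * p - yc * q| ≤ a ∧ |-(t - xc) * q - yc * p| ≤ a) ∧
      (∀ X Y, |(X - xc) * p + (Y - yc) * q| ≤ a → |-(X - xc) * q + (Y - yc) * p| ≤ a →
        ∃ t, l ≤ t ∧ t ≤ r ∧ |t - X| ≤ |Y|) := by
  rcases lt_trichotomy p 0 with h | h | h
  · have e1 : ∀ t : ℝ, -(t - xc) * (-q) - yc * (-p) = -(-(t - xc) * q - yc * p) := fun t => by ring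
    obtain ⟨l, r, h1, h2, h3⟩ := core_pos (p := -p) (q := -q) (a := a) (xc := xc) (yc := yc)
      (y := z) (z := y) (by linarith [neg_sq p, neg_sq q]) ha (by linarith) (by linarith)
      (by linarith) (by rw [e1, abs_neg]; exact hz') (by rw [e1, abs_neg]; exact hy')
    refine ⟨l, r, h1, ?_, ?_⟩
    · intro t ht1 ht2
      obtain ⟨h4, h5⟩ := h2 t ht1 ht2
      have e2 : (t - xc) * (-p) - yc * (-q) = -((t - xc) * p - yc * q) := by ring
      rw [e1, abs_neg] at h5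
      rw [e2, abs_neg] at h4
      exact ⟨h4, h5⟩
    · intro X Y hu hv
      apply h3 X Y
      · rw [show (X - xc) * (-p) + (Y - yc) * (-q) = -((X - xc) * p + (Y - yc) * q) by ring,
          abs_neg]
        exact hu
      · rw [show -(X - xc) * (-q) + (Y - yc) * (-p) = -(-(X - xc) * q + (Y - yc) * p) by ring,
          abs_neg]
        exact hv
  · subst h
    exfalso
    linarith
  · exact core_pos hpq ha h hy hz hy' hz'

/-- The data of a square cut by the line, used in both parts. -/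
def Data (o d : ℝ × ℝ) (w : ℝ) (S : Set (ℝ × ℝ)) (a : ℝ) : Prop :=
  0 < a ∧ S.Nonempty ∧ (∃ m : ℝ, ∀ z ∈ S,
    |(z.1 - o.1) * d.1 + (z.2 - o.2) * d.2 - m| + |(z.2 - o.2) * d.1 - (z.1 - o.1) * d.2| ≤ w * a) ∧
  ∃ l r : ℝ, 2 * a ≤ r - l ∧ (∀ t, l ≤ t → t ≤ r → pt o d t ∈ S) ∧
    ∀ z ∈ S, ∃ t, l ≤ t ∧ t ≤ r ∧
      |t - ((z.1 - o.1) * d.1 + (z.2 - o.2) * d.2)| ≤ |(z.2 - o.2) * d.1 - (z.1 - o.1) * d.2|

theorem data_of (o d : ℝ × ℝ) (hd : d.1 ^ 2 + d.2 ^ 2 = 1) (c e : ℝ × ℝ) (a : ℝ)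
    (he : e.1 ^ 2 + e.2 ^ 2 = 1) (ha : 0 < a) (s t : ℝ) (hs : pt o d s ∈ sq c e a)
    (ht : pt o d t ∈ sq c e a)
    (hs' : ((pt o d s).1 - c.1) * e.1 + ((pt o d s).2 - c.2) * e.2 = -a)
    (ht' : ((pt o d t).1 - c.1) * e.1 + ((pt o d t).2 - c.2) * e.2 = a) :
    Data o d 3 (sq c e a) a ∧
      ((c.2 - o.2) * d.1 - (c.1 - o.1) * d.2 = 0 → Data o d 2 (sq c e a) a) := by
  set p : ℝ := d.1 * e.1 + d.2 * e.2 with hp
  set q : ℝ := d.1 * e.2 - d.2 * e.1 with hq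
  set xc : ℝ := (c.1 - o.1) * d.1 + (c.2 - o.2) * d.2 with hxc
  set yc : ℝ := (c.2 - o.2) * d.1 - (c.1 - o.1) * d.2 with hyc
  have hpq : p ^ 2 + q ^ 2 = 1 := by
    have : p ^ 2 + q ^ 2 = (d.1 ^ 2 + d.2 ^ 2) * (e.1 ^ 2 + e.2 ^ 2) := by
      rw [hp, hq]
      ring
    rw [this, hd, he, one_mul]
  -- the two coordinates of a point
  have hu : ∀ z : ℝ × ℝ, (z.1 - c.1) * e.1 + (z.2 - c.2) * e.2 =
      ((z.1 - o.1) * d.1 + (z.2 - o.2) * d.2 - xc) * p +
        ((z.2 - o.2) * d.1 - (z.1 - o.1) * d.2 - yc) * q := by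
    intro z
    rw [hp, hq, hxc, hyc]
    linear_combination (-((z.1 - c.1) * e.1 + (z.2 - c.2) * e.2)) * hd
  have hv : ∀ z : ℝ × ℝ, (z.2 - c.2) * e.1 - (z.1 - c.1) * e.2 =
      -((z.1 - o.1) * d.1 + (z.2 - o.2) * d.2 - xc) * q +
        ((z.2 - o.2) * d.1 - (z.1 - o.1) * d.2 - yc) * p := by
    intro z
    rw [hp, hq, hxc, hyc]
    linear_combination (-((z.2 - c.2) * e.1 - (z.1 - c.1) * e.2)) * hd
  have hX : ∀ r : ℝ, ((pt o d r).1 - o.1) * d.1 + ((pt o d r).2 - o.2) * d.2 = r := by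
    intro r
    simp only [pt]
    linear_combination r * hd
  have hY : ∀ r : ℝ, ((pt o d r).2 - o.2) * d.1 - ((pt o d r).1 - o.1) * d.2 = 0 := by
    intro r
    simp only [pt]
    ring
  have hupt : ∀ r : ℝ, ((pt o d r).1 - c.1) * e.1 + ((pt o d r).2 - c.2) * e.2 =
      (r - xc) * p - yc * q := by
    intro r
    rw [hu, hX, hY]
    ring
  have hvpt : ∀ r : ℝ, ((pt o d r).2 - c.2) * e.1 - ((pt o d r).1 - c.1) * e.2 =
      -(r - xc) * q - yc * p := by
    intro r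
    rw [hv, hX, hY]
    ring
  have hs2 : |-(s - xc) * q - yc * p| ≤ a := by
    rw [← hvpt]
    exact hs.2
  have ht2 : |-(t - xc) * q - yc * p| ≤ a := by
    rw [← hvpt]
    exact ht.2
  rw [hupt] at hs' ht'
  obtain ⟨l, r, h1, h2, h3⟩ := core hpq ha hs' ht' hs2 ht2
  have hchord : ∃ l r : ℝ, 2 * a ≤ r - l ∧ (∀ t, l ≤ t → t ≤ r → pt o d t ∈ sq c e a) ∧
      ∀ z ∈ sq c e a, ∃ t, l ≤ t ∧ t ≤ r ∧
        |t - ((z.1 - o.1) * d.1 + (z.2 - o.2) * d.2)| ≤
          |(z.2 - o.2) * d.1 - (z.1 - o.1) * d.2| := by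
    refine ⟨l, r, h1, ?_, ?_⟩
    · intro t ht1 ht2
      obtain ⟨h4, h5⟩ := h2 t ht1 ht2
      refine ⟨?_, ?_⟩
      · rw [hupt]
        exact h4
      · rw [hvpt]
        exact h5
    · intro z hz
      apply h3
      · rw [← hu]
        exact hz.1
      · rw [← hv]
        exact hz.2
  -- the size of the square
  have hsize : ∀ z ∈ sq c e a, |(z.1 - o.1) * d.1 + (z.2 - o.2) * d.2 - xc| +
      |(z.2 - o.2) * d.1 - (z.1 - o.1) * d.2 - yc| ≤ 2 * a := by
    intro z hz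
    have hz1 := hz.1
    have hz2 := hz.2
    rw [hu] at hz1
    rw [hv] at hz2
    generalize (z.1 - o.1) * d.1 + (z.2 - o.2) * d.2 - xc = X at hz1 hz2 ⊢
    generalize (z.2 - o.2) * d.1 - (z.1 - o.1) * d.2 - yc = Y at hz1 hz2 ⊢
    have e1 : (X * p + Y * q) ^ 2 ≤ a ^ 2 := sq_le_sq' (abs_le.mp hz1).1 (abs_le.mp hz1).2
    have e2 : (-X * q + Y * p) ^ 2 ≤ a ^ 2 := sq_le_sq' (abs_le.mp hz2).1 (abs_le.mp hz2).2
    have e3 : X ^ 2 + Y ^ 2 = (X * p + Y * q) ^ 2 + (-X * q + Y * p) ^ 2 := by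
      linear_combination (-(X ^ 2 + Y ^ 2)) * hpq
    have e4 : (|X| + |Y|) ^ 2 ≤ (2 * a) ^ 2 := by
      have e5 : |X| ^ 2 = X ^ 2 := sq_abs X
      have e6 : |Y| ^ 2 = Y ^ 2 := sq_abs Y
      nlinarith [sq_nonneg (|X| - |Y|)]
    exact abs_le_of_sq_le_sq' e4 (by linarith) |>.2
  have hycb : |yc| ≤ a := by
    have e1 : (s - xc + (t - xc)) * p = 2 * yc * q := by linarith
    have e2 : 2 * yc = -p * ((-(s - xc) * q - yc * p) + (-(t - xc) * q - yc * p)) := by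
      linear_combination (-2 * yc) * hpq + (-q) * e1
    have e3 : |(-(s - xc) * q - yc * p) + (-(t - xc) * q - yc * p)| ≤ 2 * a := by
      refine (abs_add_le _ _).trans ?_
      linarith
    have hp1 : |p| ≤ 1 := by
      rw [← sq_le_one_iff_abs_le_one]
      nlinarith [sq_nonneg q]
    have e4 : |2 * yc| ≤ 2 * a := by
      rw [e2, abs_mul, abs_neg]
      calc |p| * _ ≤ 1 * (2 * a) := mul_le_mul hp1 e3 (abs_nonneg _) (by norm_num)
        _ = 2 * a := one_mul _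
    rw [abs_mul, abs_two] at e4
    linarith
  have hne : (sq c e a).Nonempty := ⟨_, hs⟩
  refine ⟨⟨ha, hne, ⟨xc, ?_⟩, hchord⟩, fun h0 => ⟨ha, hne, ⟨xc, ?_⟩, hchord⟩⟩
  · intro z hz
    have h4 := hsize z hz
    have h5 : |(z.2 - o.2) * d.1 - (z.1 - o.1) * d.2| ≤
        |(z.2 - o.2) * d.1 - (z.1 - o.1) * d.2 - yc| + |yc| := by
      have := abs_add_le ((z.2 - o.2) * d.1 - (z.1 - o.1) * d.2 - yc) yc
      rwa [sub_add_cancel] at this
    linarith
  · intro z hz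
    have h4 := hsize z hz
    rw [h0, sub_zero] at h4
    exact h4

theorem data_cut {o d : ℝ × ℝ} (hd : d.1 ^ 2 + d.2 ^ 2 = 1) {S : Set (ℝ × ℝ)} (h : Cut o d S) :
    ∃ a, Data o d 3 S a := by
  obtain ⟨c, e, a, he, ha, rfl, s, t, hs, ht, hs', ht'⟩ := h
  exact ⟨a, (data_of o d hd c e a he ha s t hs ht hs' ht').1⟩

/-- the square does not change when the unit vector is turned by a right angle -/
theorem sq_rot (c e : ℝ × ℝ) (a : ℝ) : sq c (-e.2, e.1) a = sq c e a := by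
  ext z
  simp only [sq, Set.mem_ofPred_eq]
  have e1 : (z.1 - c.1) * -e.2 + (z.2 - c.2) * e.1 = (z.2 - c.2) * e.1 - (z.1 - c.1) * e.2 := by
    ring
  have e2 : (z.2 - c.2) * -e.2 - (z.1 - c.1) * e.1 =
      -((z.1 - c.1) * e.1 + (z.2 - c.2) * e.2) := by
    ring
  rw [e1, e2, abs_neg]
  exact and_comm

theorem data_centred_aux {o d : ℝ × ℝ} (hd : d.1 ^ 2 + d.2 ^ 2 = 1) (s : ℝ) (e : ℝ × ℝ) (a : ℝ)
    (he : e.1 ^ 2 + e.2 ^ 2 = 1) (ha : 0 < a)
    (hpq : |d.1 * e.2 - d.2 * e.1| ≤ |d.1 * e.1 + d.2 * e.2|) :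
    Data o d 2 (sq (pt o d s) e a) a := by
  have h1 : (d.1 * e.1 + d.2 * e.2) ^ 2 + (d.1 * e.2 - d.2 * e.1) ^ 2 = 1 := by
    have : (d.1 * e.1 + d.2 * e.2) ^ 2 + (d.1 * e.2 - d.2 * e.1) ^ 2 =
        (d.1 ^ 2 + d.2 ^ 2) * (e.1 ^ 2 + e.2 ^ 2) := by ring
    rw [this, hd, he, one_mul]
  have hp0 : d.1 * e.1 + d.2 * e.2 ≠ 0 := by
    intro h
    rw [h, abs_zero] at hpq
    have h2 : d.1 * e.2 - d.2 * e.1 = 0 := abs_nonpos_iff.mp hpq
    rw [h, h2] at h1
    norm_num at h1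
  set p : ℝ := d.1 * e.1 + d.2 * e.2 with hp
  set q : ℝ := d.1 * e.2 - d.2 * e.1 with hq
  have hu : ∀ r : ℝ, ((pt o d (s + r)).1 - (pt o d s).1) * e.1 +
      ((pt o d (s + r)).2 - (pt o d s).2) * e.2 = r * p := by
    intro r
    simp only [pt, hp]
    ring
  have hv : ∀ r : ℝ, ((pt o d (s + r)).2 - (pt o d s).2) * e.1 -
      ((pt o d (s + r)).1 - (pt o d s).1) * e.2 = -(r * q) := by
    intro r
    simp only [pt, hq]
    ring
  have hr : |a / p * q| ≤ a := by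
    rw [abs_mul, abs_div, abs_of_pos ha, div_mul_eq_mul_div, div_le_iff₀ (abs_pos.mpr hp0)]
    exact mul_le_mul_of_nonneg_left hpq ha.le
  have hpa : a / p * p = a := div_mul_cancel₀ a hp0
  refine (data_of o d hd (pt o d s) e a he ha (s + -(a / p)) (s + a / p) ⟨?_, ?_⟩ ⟨?_, ?_⟩ ?_ ?_).2
    ?_
  · rw [hu, neg_mul, hpa, abs_neg, abs_of_pos ha]
  · rw [hv, neg_mul, neg_neg]
    exact hr
  · rw [hu, hpa, abs_of_pos ha]
  · rw [hv, abs_neg]
    exact hr
  · rw [hu, neg_mul, hpa]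
  · rw [hu, hpa]
  · simp only [pt]
    ring

theorem data_centred {o d : ℝ × ℝ} (hd : d.1 ^ 2 + d.2 ^ 2 = 1) {S : Set (ℝ × ℝ)}
    (h : Centred o d S) : ∃ a, Data o d 2 S a := by
  obtain ⟨s, e, a, he, ha, rfl⟩ := h
  rcases le_total |d.1 * e.2 - d.2 * e.1| |d.1 * e.1 + d.2 * e.2| with h1 | h1
  · exact ⟨a, data_centred_aux hd s e a he ha h1⟩
  · refine ⟨a, ?_⟩
    have h2 := data_centred_aux (o := o) hd s (-e.2, e.1) a (by
      show (-e.2) ^ 2 + e.1 ^ 2 = 1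
      linarith [neg_sq e.2]) ha (by
        show |d.1 * e.1 - d.2 * -e.2| ≤ |d.1 * -e.2 + d.2 * e.1|
        have e1 : d.1 * e.1 - d.2 * -e.2 = d.1 * e.1 + d.2 * e.2 := by ring
        have e2 : d.1 * -e.2 + d.2 * e.1 = -(d.1 * e.2 - d.2 * e.1) := by ring
        rw [e1, e2, abs_neg]
        exact h1)
    rwa [sq_rot] at h2

/-- the points on the line -/
theorem hit {o d : ℝ × ℝ} {w : ℝ} {S T : Set (ℝ × ℝ)} {a b : ℝ} (hS : Data o d w S a)
    (hT : Data o d w T b) (hab : a ≤ b) (hST : ¬ Disjoint S T) :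
    ∀ m : ℝ, (∀ z ∈ S,
    |(z.1 - o.1) * d.1 + (z.2 - o.2) * d.2 - m| + |(z.2 - o.2) * d.1 - (z.1 - o.1) * d.2| ≤ w * a) →
    ∃ l r t : ℝ, 2 * a ≤ r - l ∧ l ≤ t ∧ t ≤ r ∧ |t - m| ≤ w * a ∧
      ∀ t, l ≤ t → t ≤ r → pt o d t ∈ T := by
  intro m hm
  obtain ⟨z, hzS, hzT⟩ := Set.not_disjoint_iff.mp hST
  obtain ⟨_, _, _, l, r, h1, h2, h3⟩ := hT
  obtain ⟨t, ht1, ht2, ht3⟩ := h3 z hzT
  refine ⟨l, r, t, by linarith, ht1, ht2, ?_, h2⟩
  have h4 := hm z hzS
  have h5 := abs_add_le (t - ((z.1 - o.1) * d.1 + (z.2 - o.2) * d.2))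
    ((z.1 - o.1) * d.1 + (z.2 - o.2) * d.2 - m)
  rw [sub_add_sub_cancel] at h5
  linarith

/-- Hitting and packing numbers of finite families of squares in the plane.
(1) If a line meets two opposite sides of every square of the family, then `tau ≤ 4 * nu`.
(2) If the centres of the squares lie on a common line, then `tau ≤ 3 * nu`. -/
theorem result (o d : ℝ × ℝ) (hd : d.1 ^ 2 + d.2 ^ 2 = 1) (F : Finset (Set (ℝ × ℝ))) :
    ((∀ S ∈ F, Cut o d S) → tau F ≤ 4 * nu F) ∧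
    ((∀ S ∈ F, Centred o d S) → tau F ≤ 3 * nu F) := by
  classical
  refine ⟨?_, ?_⟩
  · intro hF
    have hF' : ∀ S ∈ F, ∃ a, Data o d 3 S a := fun S hS => data_cut hd (hF S hS)
    choose! a ha using hF'
    refine nu_tau F (greedy a F (fun S hS => (ha S hS).2.1) ?_)
    intro S hS
    obtain ⟨m, hm⟩ := (ha S hS).2.2.1
    refine ⟨{pt o d (m - 3 * a S), pt o d (m - a S), pt o d (m + a S), pt o d (m + 3 * a S)},
      Finset.card_le_four, ?_⟩
    intro T hT hab hST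
    obtain ⟨l, r, t, h1, h2, h3, h4, h5⟩ := hit (ha S hS) (ha T hT) hab hST m hm
    have h0 := (ha S hS).1
    rw [abs_le] at h4
    simp only [Finset.mem_insert, Finset.mem_singleton, exists_eq_or_imp, exists_eq_left]
    by_cases c1 : l ≤ m - 3 * a S
    · exact Or.inl (h5 _ c1 (by linarith))
    push Not at c1
    by_cases c2 : l ≤ m - a S
    · exact Or.inr (Or.inl (h5 _ c2 (by linarith)))
    push Not at c2
    by_cases c3 : l ≤ m + a S
    · exact Or.inr (Or.inr (Or.inl (h5 _ c3 (by linarith))))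
    push Not at c3
    exact Or.inr (Or.inr (Or.inr (h5 _ (by linarith) (by linarith))))
  · intro hF
    have hF' : ∀ S ∈ F, ∃ a, Data o d 2 S a := fun S hS => data_centred hd (hF S hS)
    choose! a ha using hF'
    refine nu_tau F (greedy a F (fun S hS => (ha S hS).2.1) ?_)
    intro S hS
    obtain ⟨m, hm⟩ := (ha S hS).2.2.1
    refine ⟨{pt o d (m - 2 * a S), pt o d m, pt o d (m + 2 * a S)}, Finset.card_le_three, ?_⟩
    intro T hT hab hST
    obtain ⟨l, r, t, h1, h2, h3, h4, h5⟩ := hit (ha S hS) (ha T hT) hab hST m hm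
    have h0 := (ha S hS).1
    rw [abs_le] at h4
    simp only [Finset.mem_insert, Finset.mem_singleton, exists_eq_or_imp, exists_eq_left]
    by_cases c1 : l ≤ m - 2 * a S
    · exact Or.inl (h5 _ c1 (by linarith))
    push Not at c1
    by_cases c2 : l ≤ m
    · exact Or.inr (Or.inl (h5 _ c2 (by linarith)))
    push Not at c2
    exact Or.inr (Or.inr (h5 _ (by linarith) (by linarith)))

end Pool.Agent.Results.MP_cfdc1c_co.CommonLine
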