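import Mathlib

namespace Pool.Agent.Results.MP_cfdc1c_co.SameSize

/-- The closed solid square with centre `c` and side length `s` whose sides are parallel to
`(Real.cos t, Real.sin t)` and `(-Real.sin t, Real.cos t)`. -/
def square (c : ℝ × ℝ) (s t : ℝ) : Set (ℝ × ℝ) :=
  {z | |(z.1 - c.1) * Real.cos t + (z.2 - c.2) * Real.sin t| ≤ s / 2 ∧
    |(z.2 - c.2) * Real.cos t - (z.1 - c.1) * Real.sin t| ≤ s / 2}

/-- A square contains the closed disc of radius `s / 2` about its centre. -/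
theorem disc_subset {c z : ℝ × ℝ} {s t : ℝ} (hs : 0 < s)
    (h : (z.1 - c.1) ^ 2 + (z.2 - c.2) ^ 2 ≤ (s / 2) ^ 2) : z ∈ square c s t := by
  have hcs := Real.sin_sq_add_cos_sq t
  constructor
  · apply abs_le_of_sq_le_sq _ (by positivity)
    nlinarith [sq_nonneg ((z.1 - c.1) * Real.sin t - (z.2 - c.2) * Real.cos t)]
  · apply abs_le_of_sq_le_sq _ (by positivity)
    nlinarith [sq_nonneg ((z.1 - c.1) * Real.cos t + (z.2 - c.2) * Real.sin t)]

/-- A square lies in the closed disc of radius `s / √2` about its centre. -/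
theorem subset_disc {c z : ℝ × ℝ} {s t : ℝ} (h : z ∈ square c s t) :
    (z.1 - c.1) ^ 2 + (z.2 - c.2) ^ 2 ≤ s ^ 2 / 2 := by
  have hcs := Real.sin_sq_add_cos_sq t
  obtain ⟨h1, h2⟩ := h
  have h3 := sq_le_sq' (abs_le.1 h1).1 (abs_le.1 h1).2
  have h4 := sq_le_sq' (abs_le.1 h2).1 (abs_le.1 h2).2
  have h5 : (z.1 - c.1) ^ 2 + (z.2 - c.2) ^ 2 =
      ((z.1 - c.1) * Real.cos t + (z.2 - c.2) * Real.sin t) ^ 2 +
      ((z.2 - c.2) * Real.cos t - (z.1 - c.1) * Real.sin t) ^ 2 := by
    have : ((z.1 - c.1) * Real.cos t + (z.2 - c.2) * Real.sin t) ^ 2 +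
      ((z.2 - c.2) * Real.cos t - (z.1 - c.1) * Real.sin t) ^ 2 =
      ((z.1 - c.1) ^ 2 + (z.2 - c.2) ^ 2) * (Real.sin t ^ 2 + Real.cos t ^ 2) := by ring
    rw [this, hcs, mul_one]
  rw [h5]
  nlinarith

/-- The point with coordinates `u`, `v` in the frame `(cos f, sin f)`, `(-sin f, cos f)`. -/
noncomputable def pt (f u v : ℝ) : ℝ × ℝ :=
  (u * Real.cos f - v * Real.sin f, u * Real.sin f + v * Real.cos f)

/-- First coordinate in the frame. -/
noncomputable def X (f : ℝ) (z : ℝ × ℝ) : ℝ := z.1 * Real.cos f + z.2 * Real.sin f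

/-- Second coordinate in the frame. -/
noncomputable def Y (f : ℝ) (z : ℝ × ℝ) : ℝ := z.2 * Real.cos f - z.1 * Real.sin f

theorem dist_frame (f : ℝ) (z c : ℝ × ℝ) :
    (z.1 - c.1) ^ 2 + (z.2 - c.2) ^ 2 = (X f z - X f c) ^ 2 + (Y f z - Y f c) ^ 2 := by
  have hcs := Real.sin_sq_add_cos_sq f
  have : (X f z - X f c) ^ 2 + (Y f z - Y f c) ^ 2 =
      ((z.1 - c.1) ^ 2 + (z.2 - c.2) ^ 2) * (Real.sin f ^ 2 + Real.cos f ^ 2) := by
    unfold X Y; ring
  rw [this, hcs, mul_one]

theorem X_pt (f u v : ℝ) : X f (pt f u v) = u := by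
  have hcs := Real.sin_sq_add_cos_sq f
  have : X f (pt f u v) = u * (Real.sin f ^ 2 + Real.cos f ^ 2) := by
    unfold X pt; simp only; ring
  rw [this, hcs, mul_one]

theorem Y_pt (f u v : ℝ) : Y f (pt f u v) = v := by
  have hcs := Real.sin_sq_add_cos_sq f
  have : Y f (pt f u v) = v * (Real.sin f ^ 2 + Real.cos f ^ 2) := by
    unfold Y pt; simp only; ring
  rw [this, hcs, mul_one]

/-- A square of side at least `a` whose centre lies in a cell of side `r = a / √2` contains the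
centre of the cell. -/
theorem hit {c : ℝ × ℝ} {a s t f r u v : ℝ} (ha : 0 < a) (has : a ≤ s) (hr2 : r ^ 2 = a ^ 2 / 2)
    (h1 : |X f c - u| ≤ r / 2) (h2 : |Y f c - v| ≤ r / 2) : pt f u v ∈ square c s t := by
  apply disc_subset (by linarith)
  rw [dist_frame f, X_pt, Y_pt]
  have h3 := sq_le_sq' (abs_le.1 h1).1 (abs_le.1 h1).2
  have h4 := sq_le_sq' (abs_le.1 h2).1 (abs_le.1 h2).2
  have h5 : a ^ 2 ≤ s ^ 2 := by nlinarith
  nlinarith

/-- Squares of side at most `l a / 2` whose centres have first coordinates more than `l r`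
apart are disjoint. -/
theorem far {c d : ℝ × ℝ} {a s s' t t' f r : ℝ} {l : ℕ} (ha : 0 < a) (hr : 0 < r)
    (hr2 : r ^ 2 = a ^ 2 / 2) (hs : a ≤ s ∧ s ≤ l * a / 2) (hs' : a ≤ s' ∧ s' ≤ l * a / 2)
    (h : l * r < X f d - X f c) : Disjoint (square c s t) (square d s' t') := by
  rw [Set.disjoint_left]
  intro z h1 h2
  have h3 := subset_disc h1
  have h4 := subset_disc h2
  rw [dist_frame f] at h3 h4
  have hl : (0 : ℝ) ≤ l := Nat.cast_nonneg l
  have key : ∀ w : ℝ, a ≤ w ∧ w ≤ l * a / 2 → w ^ 2 / 2 ≤ (l * r / 2) ^ 2 := by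
    intro w hw
    have h5 : w ^ 2 ≤ (l * a / 2) ^ 2 := by
      apply pow_le_pow_left₀ (by linarith [hw.1]) hw.2
    have h6 : (l * r / 2) ^ 2 = (l * a / 2) ^ 2 / 2 := by
      have : ((l : ℝ) * r / 2) ^ 2 = l ^ 2 / 4 * r ^ 2 := by ring
      rw [this, hr2]; ring
    rw [h6]; linarith
  have hlr : (0 : ℝ) ≤ l * r / 2 := by positivity
  have h5 : |X f z - X f c| ≤ l * r / 2 :=
    abs_le_of_sq_le_sq (by nlinarith [sq_nonneg (Y f z - Y f c), key s hs]) hlr
  have h6 : |X f z - X f d| ≤ l * r / 2 :=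
    abs_le_of_sq_le_sq (by nlinarith [sq_nonneg (Y f z - Y f d), key s' hs']) hlr
  rw [abs_le] at h5 h6
  linarith [h5.1, h5.2, h6.1, h6.2]

/-- A number in `[0, l r]` lies in one of the `l` intervals `[b r, (b + 1) r]`. -/
theorem cell {r d : ℝ} (hd : 0 ≤ d) : ∀ l : ℕ, 1 ≤ l → d ≤ l * r →
    ∃ b < l, (b : ℝ) * r ≤ d ∧ d ≤ (b + 1) * r := by
  intro l
  induction l with
  | zero => intro h; omega
  | succ l ih =>
    intro _ hdl
    rcases Nat.eq_zero_or_pos l with h0 | h0
    · subst h0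
      exact ⟨0, by omega, by simpa using hd, by simpa using hdl⟩
    · rcases le_total d (l * r) with h1 | h1
      · obtain ⟨b, hb, hb1⟩ := ih h0 h1
        exact ⟨b, by omega, hb1⟩
      · exact ⟨l, by omega, h1, by simpa using hdl⟩

/-- One strip of width `r`: `l` points for each square of a packing. -/
theorem strip {ι : Type*} [DecidableEq ι] (c : ι → ℝ × ℝ) (s t : ι → ℝ) {a f r y : ℝ} {l : ℕ}
    (hl : 1 ≤ l) (ha : 0 < a) (hs : ∀ i, a ≤ s i ∧ s i ≤ l * a / 2)
    (hr : 0 < r) (hr2 : r ^ 2 = a ^ 2 / 2) : ∀ (n : ℕ) (A : Finset ι), A.card ≤ n →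
    (∀ i ∈ A, y ≤ Y f (c i) ∧ Y f (c i) ≤ y + r) →
    ∃ (P : Finset (ℝ × ℝ)) (I : Finset ι), I ⊆ A ∧ P.card ≤ l * I.card ∧
      (∀ i ∈ I, ∀ j ∈ I, i ≠ j →
        Disjoint (square (c i) (s i) (t i)) (square (c j) (s j) (t j))) ∧
      ∀ i ∈ A, ∃ z ∈ P, z ∈ square (c i) (s i) (t i) := by
  intro n
  induction n with
  | zero =>
    intro A hA _
    have : A = ∅ := Finset.card_eq_zero.1 (by omega)
    subst this
    exact ⟨∅, ∅, by simp, by simp, by simp, by simp⟩
  | succ n ih =>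
    intro A hA hy
    rcases A.eq_empty_or_nonempty with he | hne
    · subst he
      exact ⟨∅, ∅, by simp, by simp, by simp, by simp⟩
    obtain ⟨i0, hi0, hmin⟩ := A.exists_min_image (fun i => X f (c i)) hne
    set A' := A.filter (fun i => X f (c i0) + l * r < X f (c i)) with hA'
    have hlr : (0 : ℝ) ≤ l * r := by positivity
    have hi0' : i0 ∉ A' := by
      rw [hA', Finset.mem_filter]
      rintro ⟨_, h⟩
      linarith
    have hlt : A'.card < A.card := by
      apply Finset.card_lt_card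
      rw [Finset.ssubset_iff_of_subset (Finset.filter_subset _ _)]
      exact ⟨i0, hi0, hi0'⟩
    obtain ⟨P', I', hI', hc', hd', hh'⟩ := ih A' (by omega)
      (fun i hi => hy i (Finset.mem_of_mem_filter i hi))
    have hi0I : i0 ∉ I' := fun h => hi0' (hI' h)
    set Q : Finset (ℝ × ℝ) := (Finset.range l).image
      (fun b : ℕ => pt f (X f (c i0) + b * r + r / 2) (y + r / 2)) with hQ
    have hQc : Q.card ≤ l := by
      rw [hQ]
      exact Finset.card_image_le.trans (by simp)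
    refine ⟨Q ∪ P', insert i0 I', ?_, ?_, ?_, ?_⟩
    · intro i hi
      rcases Finset.mem_insert.1 hi with h1 | h1
      · rw [h1]; exact hi0
      · exact Finset.mem_of_mem_filter i (hI' h1)
    · rw [Finset.card_insert_of_notMem hi0I]
      have h1 := Finset.card_union_le Q P'
      have h2 : l * (I'.card + 1) = l * I'.card + l := by ring
      omega
    · have hfar : ∀ j ∈ I',
          Disjoint (square (c i0) (s i0) (t i0)) (square (c j) (s j) (t j)) := by
        intro j hj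
        have := (Finset.mem_filter.1 (hI' hj)).2
        exact far ha hr hr2 (hs i0) (hs j) (f := f) (by linarith)
      intro i hi j hj hij
      rcases Finset.mem_insert.1 hi with h1 | h1
      · rcases Finset.mem_insert.1 hj with h2 | h2
        · exact absurd (h1.trans h2.symm) hij
        · rw [h1]; exact hfar j h2
      · rcases Finset.mem_insert.1 hj with h2 | h2
        · rw [h2]; exact (hfar i h1).symm
        · exact hd' i h1 j h2 hij
    · intro i hi
      by_cases hiA : i ∈ A'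
      · obtain ⟨z, hz, hz'⟩ := hh' i hiA
        exact ⟨z, Finset.mem_union_right _ hz, hz'⟩
      · have hx : X f (c i) ≤ X f (c i0) + l * r := by
          by_contra hcon
          push Not at hcon
          exact hiA (Finset.mem_filter.2 ⟨hi, hcon⟩)
        have hx0 : X f (c i0) ≤ X f (c i) := hmin i hi
        obtain ⟨hy1, hy2⟩ := hy i hi
        obtain ⟨b, hb, hb1, hb2⟩ := cell (r := r) (d := X f (c i) - X f (c i0)) (by linarith) l hl
          (by linarith)
        refine ⟨pt f (X f (c i0) + b * r + r / 2) (y + r / 2), Finset.mem_union_left _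
          (Finset.mem_image.2 ⟨b, Finset.mem_range.2 hb, rfl⟩), hit ha (hs i).1 hr2 ?_ ?_⟩
        · rw [abs_le]; constructor <;> nlinarith
        · rw [abs_le]; constructor <;> linarith

/-- Squares whose centres have second coordinates more than `l r` apart are disjoint. -/
theorem farY {c d : ℝ × ℝ} {a t t' r : ℝ} (hr : 0 < r)
    (hr2 : r ^ 2 = a ^ 2 / 2) (h : 2 * r < d.2 - c.2) :
    Disjoint (square c a t) (square d a t') := by
  rw [Set.disjoint_left]
  intro z h1 h2
  have h3 := subset_disc h1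
  have h4 := subset_disc h2
  rw [← hr2] at h3 h4
  have h5 : |z.2 - c.2| ≤ r :=
    abs_le_of_sq_le_sq (by nlinarith [sq_nonneg (z.1 - c.1)]) hr.le
  have h6 : |z.2 - d.2| ≤ r :=
    abs_le_of_sq_le_sq (by nlinarith [sq_nonneg (z.1 - d.1)]) hr.le
  rw [abs_le] at h5 h6
  linarith [h5.1, h5.2, h6.1, h6.2]

theorem result {ι : Type*} [Fintype ι] [Nonempty ι] (c : ι → ℝ × ℝ) (t : ι → ℝ) (a : ℝ)
    (ha : 0 < a) :
    ∃ (P : Finset (ℝ × ℝ)) (I : Finset ι), P.card + 2 ≤ 6 * I.card ∧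
      (∀ i ∈ I, ∀ j ∈ I, i ≠ j → Disjoint (square (c i) a (t i)) (square (c j) a (t j))) ∧
      ∀ i, ∃ z ∈ P, z ∈ square (c i) a (t i) := by
  classical
  obtain ⟨r, hr⟩ : ∃ r : ℝ, r = a / Real.sqrt 2 := ⟨_, rfl⟩
  have h2 : (0 : ℝ) < Real.sqrt 2 := Real.sqrt_pos.2 (by norm_num)
  have hr0 : 0 < r := by rw [hr]; positivity
  have hr2 : r ^ 2 = a ^ 2 / 2 := by
    rw [hr, div_pow, Real.sq_sqrt (by norm_num)]
  obtain ⟨i0, hi0⟩ := Finite.exists_min (fun i => (c i).2)
  obtain ⟨y, hy⟩ : ∃ y : ℝ, y = (c i0).2 := ⟨_, rfl⟩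
  have hymin : ∀ i, y ≤ (c i).2 := fun i => by rw [hy]; exact hi0 i
  -- the strip of a centre
  have hg : ∀ i, ∃ j : ℕ, y + j * r ≤ (c i).2 ∧ (c i).2 ≤ y + (j + 1) * r ∧
      (1 ≤ j → y + j * r < (c i).2) := by
    intro i
    have hd0 : 0 ≤ ((c i).2 - y) / r := div_nonneg (by linarith [hymin i]) hr0.le
    have hd : (c i).2 = y + ((c i).2 - y) / r * r := by field_simp; ring
    rcases Nat.eq_zero_or_pos ⌈((c i).2 - y) / r⌉₊ with h0 | h0
    · have h1 : ((c i).2 - y) / r ≤ 0 := Nat.ceil_eq_zero.1 h0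
      refine ⟨0, ?_, ?_, by omega⟩
      · simpa using hymin i
      · rw [hd]; nlinarith
    · obtain ⟨j, hj⟩ : ∃ j, ⌈((c i).2 - y) / r⌉₊ = j + 1 := ⟨_, (Nat.succ_pred_eq_of_pos h0).symm⟩
      have h1 : ((c i).2 - y) / r ≤ (j + 1 : ℕ) := by rw [← hj]; exact Nat.le_ceil _
      have h3 : (j : ℝ) < ((c i).2 - y) / r := by
        apply Nat.lt_ceil.1
        omega
      push_cast at h1
      refine ⟨j, ?_, ?_, fun _ => ?_⟩
      · rw [hd]; nlinarith
      · rw [hd]; nlinarith
      · rw [hd]; nlinarith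
  choose g hg1 hg2 hg3 using hg
  have hs : ∀ _ : ι, a ≤ a ∧ a ≤ ((2 : ℕ) : ℝ) * a / 2 := fun _ => ⟨le_rfl, by push_cast; linarith⟩
  have H : ∀ j : ℕ, ∃ (P : Finset (ℝ × ℝ)) (I : Finset ι), (∀ i ∈ I, g i = j) ∧
      P.card ≤ 2 * I.card ∧
      (∀ i ∈ I, ∀ k ∈ I, i ≠ k → Disjoint (square (c i) a (t i)) (square (c k) a (t k))) ∧
      ∀ i, g i = j → ∃ z ∈ P, z ∈ square (c i) a (t i) := by
    intro j
    obtain ⟨P, I, hI, h3, h4, h5⟩ := strip c (fun _ => a) t (f := 0) (y := y + j * r) (l := 2)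
      (by omega) ha hs hr0 hr2 _ (Finset.univ.filter (fun i => g i = j)) le_rfl (by
        intro i hi
        have hij := (Finset.mem_filter.1 hi).2
        have h6 := hg1 i
        have h7 := hg2 i
        rw [hij] at h6 h7
        unfold Y
        rw [Real.cos_zero, Real.sin_zero]
        constructor <;> linarith)
    exact ⟨P, I, fun i hi => (Finset.mem_filter.1 (hI hi)).2, h3, h4,
      fun i hi => h5 i (Finset.mem_filter.2 ⟨Finset.mem_univ i, hi⟩)⟩
  choose P I hI hc hd hh using H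
  obtain ⟨N, hN⟩ : ∃ N : ℕ, ∀ i, g i < N := by
    obtain ⟨i1, hi1⟩ := Finite.exists_max g
    exact ⟨g i1 + 1, fun i => by have := hi1 i; omega⟩
  set J : ℕ → Finset ι := fun m => ((Finset.range N).filter (fun j => j % 3 = m)).biUnion I with hJ
  have hJmem : ∀ m i, i ∈ J m → i ∈ I (g i) ∧ g i % 3 = m := by
    intro m i hi
    rw [hJ, Finset.mem_biUnion] at hi
    obtain ⟨j, hj, hij⟩ := hi
    have h3 := hI j i hij
    rw [h3]
    exact ⟨hij, (Finset.mem_filter.1 hj).2⟩
  have hsep : ∀ m, ∀ i ∈ J m, ∀ k ∈ J m, i ≠ k →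
      Disjoint (square (c i) a (t i)) (square (c k) a (t k)) := by
    intro m i hi k hk hik
    obtain ⟨h3, h4⟩ := hJmem m i hi
    obtain ⟨h5, h6⟩ := hJmem m k hk
    have far3 : ∀ p q, g p % 3 = m → g q % 3 = m → g p < g q →
        2 * r < (c q).2 - (c p).2 := by
      intro p q hp hq hpq
      have h7 : g p + 3 ≤ g q := by omega
      have h8 : (g p : ℝ) + 3 ≤ g q := by exact_mod_cast h7
      have h9 := hg2 p
      have h10 := hg3 q (by omega)
      nlinarith
    rcases lt_trichotomy (g i) (g k) with hlt | heq | hgt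
    · exact farY hr0 hr2 (far3 i k h4 h6 hlt)
    · rw [← heq] at h5
      exact hd (g i) i h3 k h5 hik
    · exact (farY hr0 hr2 (far3 k i h6 h4 hgt)).symm
  have hJcard : ∀ m, (J m).card = ∑ j ∈ (Finset.range N).filter (fun j => j % 3 = m),
      (I j).card := by
    intro m
    apply Finset.card_biUnion
    intro j _ k _ hjk
    show Disjoint (I j) (I k)
    rw [Finset.disjoint_left]
    intro i hij hik
    exact hjk ((hI j i hij).symm.trans (hI k i hik))
  -- the lowest square is disjoint from class 2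
  have hi0g : g i0 = 0 := by
    by_contra hne
    have h3 := hg3 i0 (by omega)
    have h4 : (0 : ℝ) ≤ g i0 * r := by positivity
    linarith
  have hlow : ∀ k ∈ J 2, Disjoint (square (c i0) a (t i0)) (square (c k) a (t k)) := by
    intro k hk
    obtain ⟨_, h4⟩ := hJmem 2 k hk
    apply farY hr0 hr2
    have h5 : 2 ≤ g k := by omega
    have h6 : (2 : ℝ) ≤ g k := by exact_mod_cast h5
    have h7 := hg3 k (by omega)
    nlinarith
  have hi0J : i0 ∉ J 2 := by
    intro hmem
    obtain ⟨_, h4⟩ := hJmem 2 i0 hmem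
    omega
  have hsum : ∑ j ∈ Finset.range N, (I j).card = (J 0).card + (J 1).card + (J 2).card := by
    rw [hJcard, hJcard, hJcard, Finset.sum_filter, Finset.sum_filter, Finset.sum_filter,
      ← Finset.sum_add_distrib, ← Finset.sum_add_distrib]
    apply Finset.sum_congr rfl
    intro j _
    have h3 : j % 3 = 0 ∨ j % 3 = 1 ∨ j % 3 = 2 := by omega
    rcases h3 with h3 | h3 | h3 <;> simp [h3]
  set PP : Finset (ℝ × ℝ) := (Finset.range N).biUnion P with hPP
  have hPc : PP.card ≤ 2 * ((J 0).card + (J 1).card + (J 2).card) := by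
    rw [← hsum, Finset.mul_sum]
    exact Finset.card_biUnion_le.trans (Finset.sum_le_sum fun j _ => hc j)
  have hPh : ∀ i, ∃ z ∈ PP, z ∈ square (c i) a (t i) := by
    intro i
    obtain ⟨z, hz, hz'⟩ := hh (g i) i rfl
    exact ⟨z, Finset.mem_biUnion.2 ⟨g i, Finset.mem_range.2 (hN i), hz⟩, hz'⟩
  have hJ2 : ∀ i ∈ insert i0 (J 2), ∀ k ∈ insert i0 (J 2), i ≠ k →
      Disjoint (square (c i) a (t i)) (square (c k) a (t k)) := by
    intro i hi k hk hik
    rcases Finset.mem_insert.1 hi with h3 | h3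
    · rcases Finset.mem_insert.1 hk with h4 | h4
      · exact absurd (h3.trans h4.symm) hik
      · rw [h3]; exact hlow k h4
    · rcases Finset.mem_insert.1 hk with h4 | h4
      · rw [h4]; exact (hlow i h3).symm
      · exact hsep 2 i h3 k h4 hik
  have hJ2c : (insert i0 (J 2)).card = (J 2).card + 1 := Finset.card_insert_of_notMem hi0J
  rcases le_total (J 0).card (J 1).card with h01 | h01
  · rcases le_total (J 1).card ((J 2).card + 1) with h12 | h12
    · exact ⟨PP, insert i0 (J 2), by omega, hJ2, hPh⟩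
    · exact ⟨PP, J 1, by omega, hsep 1, hPh⟩
  · rcases le_total (J 0).card ((J 2).card + 1) with h02 | h02
    · exact ⟨PP, insert i0 (J 2), by omega, hJ2, hPh⟩
    · exact ⟨PP, J 0, by omega, hsep 0, hPh⟩

end Pool.Agent.Results.MP_cfdc1c_co.SameSize
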