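import Mathlib

namespace Pool.Agent.Results.MP_cfdc1c_co.SeparatedScales

/-- `Q` is a closed solid square of side `s > 0` in the plane (any orientation): there are a
centre `c` and a unit vector `e` such that `Q` consists of the points `p` whose difference with
`c` has scalar products of absolute value at most `s / 2` with `e` and with the vector obtained
from `e` by a quarter turn. -/
def IsSquare (Q : Set (ℝ × ℝ)) (s : ℝ) : Prop :=
  0 < s ∧ ∃ c e : ℝ × ℝ, e.1 ^ 2 + e.2 ^ 2 = 1 ∧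
    Q = {p | |(p.1 - c.1) * e.1 + (p.2 - c.2) * e.2| ≤ s / 2 ∧
      |(p.2 - c.2) * e.1 - (p.1 - c.1) * e.2| ≤ s / 2}

/-- The packing number: the largest number of pairwise disjoint members of `F`. -/
noncomputable def nu (F : Finset (Set (ℝ × ℝ))) : ℕ :=
  sSup {n | ∃ T : Finset (Set (ℝ × ℝ)), T ⊆ F ∧ T.card = n ∧
    (T : Set (Set (ℝ × ℝ))).PairwiseDisjoint id}

/-- The hitting number: the least number of points meeting every member of `F`. -/
noncomputable def tau (F : Finset (Set (ℝ × ℝ))) : ℕ :=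
  sInf {n | ∃ P : Finset (ℝ × ℝ), P.card = n ∧ ∀ Q ∈ F, ∃ p ∈ P, p ∈ Q}

/-- The linear form `p x + q y` on a sector is at least its minimum at the two boundary
vectors, up to the normalisation. -/
lemma cone {p q a b w1 w2 v1 v2 m : ℝ} (hm : 0 ≤ m) (hw : w1 ^ 2 + w2 ^ 2 ≤ 1)
    (hv : v1 ^ 2 + v2 ^ 2 ≤ 1) (hf : a ^ 2 + b ^ 2 = 1) (hD : 0 < w1 * v2 - w2 * v1)
    (h1 : 0 ≤ w1 * b - w2 * a) (h2 : v1 * b - v2 * a ≤ 0)
    (hP : m ≤ p * w1 + q * w2) (hP' : m ≤ p * v1 + q * v2) : m ≤ p * a + q * b := by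
  obtain ⟨D, hDdef⟩ : ∃ D, D = w1 * v2 - w2 * v1 := ⟨_, rfl⟩
  obtain ⟨A, hA⟩ : ∃ A, A = a * v2 - b * v1 := ⟨_, rfl⟩
  obtain ⟨B, hB⟩ : ∃ B, B = w1 * b - w2 * a := ⟨_, rfl⟩
  have hA0 : 0 ≤ A := by rw [hA]; linarith
  have hB0 : 0 ≤ B := by rw [hB]; exact h1
  have hD0 : 0 < D := by rw [hDdef]; exact hD
  have ea : D * a = A * w1 + B * v1 := by rw [hDdef, hA, hB]; ring
  have eb : D * b = A * w2 + B * v2 := by rw [hDdef, hA, hB]; ring
  have cs : w1 * v1 + w2 * v2 ≤ 1 := by nlinarith [sq_nonneg (w1 - v1), sq_nonneg (w2 - v2)]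
  have e1 : D ^ 2 = (A * w1 + B * v1) ^ 2 + (A * w2 + B * v2) ^ 2 := by
    rw [← ea, ← eb]
    have : (D * a) ^ 2 + (D * b) ^ 2 = D ^ 2 * (a ^ 2 + b ^ 2) := by ring
    rw [this, hf, mul_one]
  have e2 : D ^ 2 ≤ (A + B) ^ 2 := by
    have x1 : A ^ 2 * (w1 ^ 2 + w2 ^ 2) ≤ A ^ 2 * 1 :=
      mul_le_mul_of_nonneg_left hw (sq_nonneg A)
    have x2 : B ^ 2 * (v1 ^ 2 + v2 ^ 2) ≤ B ^ 2 * 1 :=
      mul_le_mul_of_nonneg_left hv (sq_nonneg B)
    have x3 : (A * B) * (w1 * v1 + w2 * v2) ≤ (A * B) * 1 :=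
      mul_le_mul_of_nonneg_left cs (mul_nonneg hA0 hB0)
    rw [e1]
    nlinarith
  have e3 : D ≤ A + B := by
    by_contra hc
    push Not at hc
    nlinarith
  have e4 : D * (p * a + q * b) = A * (p * w1 + q * w2) + B * (p * v1 + q * v2) := by
    have : D * (p * a + q * b) = p * (D * a) + q * (D * b) := by ring
    rw [this, ea, eb]; ring
  have e5 : D * m ≤ D * (p * a + q * b) := by
    rw [e4]
    have y1 : A * m ≤ A * (p * w1 + q * w2) := mul_le_mul_of_nonneg_left hP hA0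
    have y2 : B * m ≤ B * (p * v1 + q * v2) := mul_le_mul_of_nonneg_left hP' hB0
    have y3 : D * m ≤ (A + B) * m := mul_le_mul_of_nonneg_right e3 hm
    nlinarith
  exact le_of_mul_le_mul_left e5 hD0

/-- The five outer points (for a smallest square with centre the origin and half-side one). -/
noncomputable def pt : Fin 5 → ℝ × ℝ :=
  ![(9.085, 0), (2.807, 8.64), (-7.35, 5.34), (-7.35, -5.34), (2.807, -8.64)]

lemma pt_norm (k : Fin 5) : (pt k).1 ^ 2 + (pt k).2 ^ 2 ≤ 9.0857 ^ 2 := by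
  fin_cases k <;> norm_num [pt]

/-- For every unit vector `f = (a, b)` one of the five points has scalar product at least
`1.4143` with `f` and with `f` turned by a quarter turn. -/
lemma cover {a b : ℝ} (hf : a ^ 2 + b ^ 2 = 1) :
    ∃ k, 1.4143 ≤ (pt k).1 * a + (pt k).2 * b ∧ 1.4143 ≤ (pt k).2 * a - (pt k).1 * b := by
  have hm : (0 : ℝ) ≤ 1.4143 := by norm_num
  obtain ⟨s0, hs0⟩ : ∃ s, s = (0.9876 : ℝ) * b - (-0.1564) * a := ⟨_, rfl⟩
  obtain ⟨s1, hs1⟩ : ∃ s, s = (0.4539 : ℝ) * b - (0.8910) * a := ⟨_, rfl⟩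
  obtain ⟨s2, hs2⟩ : ∃ s, s = (-0.7071 : ℝ) * b - (0.7071) * a := ⟨_, rfl⟩
  obtain ⟨s3, hs3⟩ : ∃ s, s = (-0.8910 : ℝ) * b - (-0.4539) * a := ⟨_, rfl⟩
  obtain ⟨s4, hs4⟩ : ∃ s, s = (0.1564 : ℝ) * b - (-0.9876) * a := ⟨_, rfl⟩
  have key : (0 ≤ s0 ∧ s1 ≤ 0) ∨ (0 ≤ s1 ∧ s2 ≤ 0) ∨ (0 ≤ s2 ∧ s3 ≤ 0) ∨ (0 ≤ s3 ∧ s4 ≤ 0) ∨
      (0 ≤ s4 ∧ s0 ≤ 0) := by
    by_contra hc
    push Not at hc
    obtain ⟨h0, h1, h2, h3, h4⟩ := hc
    rcases le_or_gt 0 s0 with g | g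
    · have g1 := h0 g
      have g2 := h1 g1.le
      have g3 := h2 g2.le
      have g4 := h3 g3.le
      have g0 := h4 g4.le
      linarith
    · rcases le_or_gt 0 s4 with g4 | g4
      · have := h4 g4
        linarith
      · rcases le_or_gt 0 s3 with g3 | g3
        · have := h3 g3
          linarith
        · rcases le_or_gt 0 s2 with g2 | g2
          · have := h2 g2
            linarith
          · rcases le_or_gt 0 s1 with g1 | g1
            · have := h1 g1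
              linarith
            · linarith
  rcases key with g | g | g | g | g
  · refine ⟨1, ?_, ?_⟩
    · have := cone (p := 2.807) (q := 8.64) (w1 := 0.9876) (w2 := -0.1564) (v1 := 0.4539)
        (v2 := 0.8910) hm (by norm_num) (by norm_num) hf (by norm_num) (by rw [← hs0]; exact g.1)
        (by rw [← hs1]; exact g.2) (by norm_num) (by norm_num)
      simpa [pt] using this
    · have := cone (p := 8.64) (q := -2.807) (w1 := 0.9876) (w2 := -0.1564) (v1 := 0.4539)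
        (v2 := 0.8910) hm (by norm_num) (by norm_num) hf (by norm_num) (by rw [← hs0]; exact g.1)
        (by rw [← hs1]; exact g.2) (by norm_num) (by norm_num)
      have e : (pt 1).2 * a - (pt 1).1 * b = (8.64) * a + (-2.807) * b := by
        simp [pt]; try ring
      rw [e]; exact this
  · refine ⟨2, ?_, ?_⟩
    · have := cone (p := -7.35) (q := 5.34) (w1 := 0.4539) (w2 := 0.8910) (v1 := -0.7071)
        (v2 := 0.7071) hm (by norm_num) (by norm_num) hf (by norm_num) (by rw [← hs1]; exact g.1)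
        (by rw [← hs2]; exact g.2) (by norm_num) (by norm_num)
      simpa [pt] using this
    · have := cone (p := 5.34) (q := 7.35) (w1 := 0.4539) (w2 := 0.8910) (v1 := -0.7071)
        (v2 := 0.7071) hm (by norm_num) (by norm_num) hf (by norm_num) (by rw [← hs1]; exact g.1)
        (by rw [← hs2]; exact g.2) (by norm_num) (by norm_num)
      have e : (pt 2).2 * a - (pt 2).1 * b = (5.34) * a + (7.35) * b := by
        simp [pt]; try ring
      rw [e]; exact this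
  · refine ⟨3, ?_, ?_⟩
    · have := cone (p := -7.35) (q := -5.34) (w1 := -0.7071) (w2 := 0.7071) (v1 := -0.8910)
        (v2 := -0.4539) hm (by norm_num) (by norm_num) hf (by norm_num) (by rw [← hs2]; exact g.1)
        (by rw [← hs3]; exact g.2) (by norm_num) (by norm_num)
      simpa [pt] using this
    · have := cone (p := -5.34) (q := 7.35) (w1 := -0.7071) (w2 := 0.7071) (v1 := -0.8910)
        (v2 := -0.4539) hm (by norm_num) (by norm_num) hf (by norm_num) (by rw [← hs2]; exact g.1)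
        (by rw [← hs3]; exact g.2) (by norm_num) (by norm_num)
      have e : (pt 3).2 * a - (pt 3).1 * b = (-5.34) * a + (7.35) * b := by
        simp [pt]; try ring
      rw [e]; exact this
  · refine ⟨4, ?_, ?_⟩
    · have := cone (p := 2.807) (q := -8.64) (w1 := -0.8910) (w2 := -0.4539) (v1 := 0.1564)
        (v2 := -0.9876) hm (by norm_num) (by norm_num) hf (by norm_num) (by rw [← hs3]; exact g.1)
        (by rw [← hs4]; exact g.2) (by norm_num) (by norm_num)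
      simpa [pt] using this
    · have := cone (p := -8.64) (q := -2.807) (w1 := -0.8910) (w2 := -0.4539) (v1 := 0.1564)
        (v2 := -0.9876) hm (by norm_num) (by norm_num) hf (by norm_num) (by rw [← hs3]; exact g.1)
        (by rw [← hs4]; exact g.2) (by norm_num) (by norm_num)
      have e : (pt 4).2 * a - (pt 4).1 * b = (-8.64) * a + (-2.807) * b := by
        simp [pt]; try ring
      rw [e]; exact this
  · refine ⟨0, ?_, ?_⟩
    · have := cone (p := 9.085) (q := 0) (w1 := 0.1564) (w2 := -0.9876) (v1 := 0.9876)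
        (v2 := -0.1564) hm (by norm_num) (by norm_num) hf (by norm_num) (by rw [← hs4]; exact g.1)
        (by rw [← hs0]; exact g.2) (by norm_num) (by norm_num)
      simpa [pt] using this
    · have := cone (p := 0) (q := -9.085) (w1 := 0.1564) (w2 := -0.9876) (v1 := 0.9876)
        (v2 := -0.1564) hm (by norm_num) (by norm_num) hf (by norm_num) (by rw [← hs4]; exact g.1)
        (by rw [← hs0]; exact g.2) (by norm_num) (by norm_num)
      have e : (pt 0).2 * a - (pt 0).1 * b = (0) * a + (-9.085) * b := by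
        simp [pt]; try ring
      rw [e]; exact this

/-- Signs: a number `X` with `|X| ≤ h` moved by `σ t`, `0 ≤ t ≤ h`, towards zero stays within
`[-h, h]`. -/
lemma toward {X h t : ℝ} (hX : |X| ≤ h) (ht0 : 0 ≤ t) (ht : t ≤ h) {σ : ℝ}
    (hσ : (σ = 1 ∧ X ≤ 0) ∨ (σ = -1 ∧ 0 ≤ X)) : |X + σ * t| ≤ h := by
  rw [abs_le] at hX ⊢
  rcases hσ with ⟨rfl, h0⟩ | ⟨rfl, h0⟩ <;> constructor <;> linarith [hX.1, hX.2]

/-- A square meeting a square with centre `c₀` and side `s₀`, and at least `10.5` times as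
large, contains one of the five points `c₀ + (s₀ / 2) pt k`. -/
lemma hit {Q₀ Q : Set (ℝ × ℝ)} {s₀ s : ℝ} {c₀ e₀ : ℝ × ℝ} (hs₀ : 0 < s₀)
    (he₀ : e₀.1 ^ 2 + e₀.2 ^ 2 = 1)
    (hQ₀ : Q₀ = {p | |(p.1 - c₀.1) * e₀.1 + (p.2 - c₀.2) * e₀.2| ≤ s₀ / 2 ∧
      |(p.2 - c₀.2) * e₀.1 - (p.1 - c₀.1) * e₀.2| ≤ s₀ / 2})
    (hQ : IsSquare Q s) (hr : 10.5 * s₀ ≤ s) {x : ℝ × ℝ} (hx₀ : x ∈ Q₀) (hx : x ∈ Q) :
    ∃ k, (c₀.1 + s₀ / 2 * (pt k).1, c₀.2 + s₀ / 2 * (pt k).2) ∈ Q := by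
  obtain ⟨hs, c, e, he, hQe⟩ := hQ
  -- the displacement of `x` from the centre of `Q₀`
  obtain ⟨h, hh⟩ : ∃ h, h = s₀ / 2 := ⟨_, rfl⟩
  have hh0 : 0 < h := by rw [hh]; linarith
  obtain ⟨D1, hD1⟩ : ∃ D, D = x.1 - c₀.1 := ⟨_, rfl⟩
  obtain ⟨D2, hD2⟩ : ∃ D, D = x.2 - c₀.2 := ⟨_, rfl⟩
  have hDn : D1 ^ 2 + D2 ^ 2 ≤ 2 * h ^ 2 := by
    rw [hQ₀] at hx₀
    obtain ⟨u1, u2⟩ := hx₀
    rw [← hD1, ← hD2, ← hh] at u1 u2
    have v1 := sq_le_sq' (abs_le.mp u1).1 (abs_le.mp u1).2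
    have v2 := sq_le_sq' (abs_le.mp u2).1 (abs_le.mp u2).2
    have : D1 ^ 2 + D2 ^ 2 = (D1 * e₀.1 + D2 * e₀.2) ^ 2 + (D2 * e₀.1 - D1 * e₀.2) ^ 2 := by
      have : (D1 * e₀.1 + D2 * e₀.2) ^ 2 + (D2 * e₀.1 - D1 * e₀.2) ^ 2 =
        (D1 ^ 2 + D2 ^ 2) * (e₀.1 ^ 2 + e₀.2 ^ 2) := by ring
      rw [this, he₀, mul_one]
    linarith
  have hmem : x ∈ {p : ℝ × ℝ | |(p.1 - c.1) * e.1 + (p.2 - c.2) * e.2| ≤ s / 2 ∧
      |(p.2 - c.2) * e.1 - (p.1 - c.1) * e.2| ≤ s / 2} := by rw [← hQe]; exact hx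
  obtain ⟨hX, hY⟩ := hmem
  -- bounds for a unit vector `g`
  have bd : ∀ g1 g2 : ℝ, g1 ^ 2 + g2 ^ 2 = 1 → ∀ k, 1.4143 ≤ (pt k).1 * g1 + (pt k).2 * g2 →
      0 ≤ h * ((pt k).1 * g1 + (pt k).2 * g2) - (D1 * g1 + D2 * g2) ∧
      h * ((pt k).1 * g1 + (pt k).2 * g2) - (D1 * g1 + D2 * g2) ≤ s / 2 := by
    intro g1 g2 hg k hk
    have q1 : (D1 * g1 + D2 * g2) ^ 2 ≤ (1.4143 * h) ^ 2 := by
      have : (D1 * g1 + D2 * g2) ^ 2 + (D2 * g1 - D1 * g2) ^ 2 =
        (D1 ^ 2 + D2 ^ 2) * (g1 ^ 2 + g2 ^ 2) := by ring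
      rw [hg, mul_one] at this
      nlinarith [sq_nonneg (D2 * g1 - D1 * g2), sq_nonneg h]
    have q2 : |D1 * g1 + D2 * g2| ≤ 1.4143 * h := abs_le_of_sq_le_sq q1 (by positivity)
    have q3 : ((pt k).1 * g1 + (pt k).2 * g2) ^ 2 ≤ 9.0857 ^ 2 := by
      have : ((pt k).1 * g1 + (pt k).2 * g2) ^ 2 + ((pt k).2 * g1 - (pt k).1 * g2) ^ 2 =
        ((pt k).1 ^ 2 + (pt k).2 ^ 2) * (g1 ^ 2 + g2 ^ 2) := by ring
      rw [hg, mul_one] at this
      nlinarith [sq_nonneg ((pt k).2 * g1 - (pt k).1 * g2), pt_norm k]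
    have q4 : |(pt k).1 * g1 + (pt k).2 * g2| ≤ 9.0857 := abs_le_of_sq_le_sq q3 (by norm_num)
    have r1 := (abs_le.mp q2).1
    have r2 := (abs_le.mp q2).2
    have r3 := (abs_le.mp q4).2
    have r4 : h * 1.4143 ≤ h * ((pt k).1 * g1 + (pt k).2 * g2) :=
      mul_le_mul_of_nonneg_left hk hh0.le
    have r5 : h * ((pt k).1 * g1 + (pt k).2 * g2) ≤ h * 9.0857 :=
      mul_le_mul_of_nonneg_left r3 hh0.le
    have r6 : 10.5 * h ≤ s / 2 := by rw [hh]; linarith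
    constructor <;> linarith
  -- the signs
  obtain ⟨σ, hσ⟩ : ∃ σ : ℝ, (σ = 1 ∧ (x.1 - c.1) * e.1 + (x.2 - c.2) * e.2 ≤ 0) ∨
      (σ = -1 ∧ 0 ≤ (x.1 - c.1) * e.1 + (x.2 - c.2) * e.2) := by
    rcases le_total ((x.1 - c.1) * e.1 + (x.2 - c.2) * e.2) 0 with g | g
    · exact ⟨1, Or.inl ⟨rfl, g⟩⟩
    · exact ⟨-1, Or.inr ⟨rfl, g⟩⟩
  obtain ⟨τ, hτ⟩ : ∃ τ : ℝ, (τ = 1 ∧ (x.2 - c.2) * e.1 - (x.1 - c.1) * e.2 ≤ 0) ∨
      (τ = -1 ∧ 0 ≤ (x.2 - c.2) * e.1 - (x.1 - c.1) * e.2) := by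
    rcases le_total ((x.2 - c.2) * e.1 - (x.1 - c.1) * e.2) 0 with g | g
    · exact ⟨1, Or.inl ⟨rfl, g⟩⟩
    · exact ⟨-1, Or.inr ⟨rfl, g⟩⟩
  have hσ2 : σ ^ 2 = 1 := by rcases hσ with ⟨rfl, -⟩ | ⟨rfl, -⟩ <;> norm_num
  have hτ2 : τ ^ 2 = 1 := by rcases hτ with ⟨rfl, -⟩ | ⟨rfl, -⟩ <;> norm_num
  -- a point with both scalar products large
  have hk : ∃ k, 1.4143 ≤ (pt k).1 * (σ * e.1) + (pt k).2 * (σ * e.2) ∧
      1.4143 ≤ (pt k).1 * (-(τ * e.2)) + (pt k).2 * (τ * e.1) := by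
    have hσ' : σ = 1 ∨ σ = -1 := by rcases hσ with ⟨g, -⟩ | ⟨g, -⟩ <;> simp [g]
    have hτ' : τ = 1 ∨ τ = -1 := by rcases hτ with ⟨g, -⟩ | ⟨g, -⟩ <;> simp [g]
    rcases hσ' with g | g <;> rcases hτ' with g' | g' <;> subst g <;> subst g'
    · obtain ⟨k, k1, k2⟩ := cover (a := e.1) (b := e.2) he
      exact ⟨k, by linarith, by linarith⟩
    · -- σ = 1, τ = -1 : the second vector is (e.2, -e.1), whose quarter turn is e
      obtain ⟨k, k1, k2⟩ := cover (a := e.2) (b := -e.1) (by nlinarith)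
      exact ⟨k, by linarith, by linarith⟩
    · -- σ = -1, τ = 1
      obtain ⟨k, k1, k2⟩ := cover (a := -e.2) (b := e.1) (by nlinarith)
      exact ⟨k, by linarith, by linarith⟩
    · obtain ⟨k, k1, k2⟩ := cover (a := -e.1) (b := -e.2) (by nlinarith)
      exact ⟨k, by linarith, by linarith⟩
  obtain ⟨k, k1, k2⟩ := hk
  refine ⟨k, ?_⟩
  rw [hQe, Set.mem_setOf_eq, ← hh]
  have b1 := bd (σ * e.1) (σ * e.2) (by
    have : (σ * e.1) ^ 2 + (σ * e.2) ^ 2 = σ ^ 2 * (e.1 ^ 2 + e.2 ^ 2) := by ring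
    rw [this, hσ2, he, mul_one]) k k1
  have b2 := bd (-(τ * e.2)) (τ * e.1) (by
    have : (-(τ * e.2)) ^ 2 + (τ * e.1) ^ 2 = τ ^ 2 * (e.1 ^ 2 + e.2 ^ 2) := by ring
    rw [this, hτ2, he, mul_one]) k k2
  constructor
  · have t1 := toward hX b1.1 b1.2 hσ
    have e1 : (c₀.1 + h * (pt k).1 - c.1) * e.1 + (c₀.2 + h * (pt k).2 - c.2) * e.2 =
        (x.1 - c.1) * e.1 + (x.2 - c.2) * e.2 +
        σ * (h * ((pt k).1 * (σ * e.1) + (pt k).2 * (σ * e.2)) -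
          (D1 * (σ * e.1) + D2 * (σ * e.2))) := by
      have : σ * (h * ((pt k).1 * (σ * e.1) + (pt k).2 * (σ * e.2)) -
          (D1 * (σ * e.1) + D2 * (σ * e.2))) = σ ^ 2 * (h * ((pt k).1 * e.1 + (pt k).2 * e.2) -
          (D1 * e.1 + D2 * e.2)) := by ring
      rw [this, hσ2, hD1, hD2]; ring
    rw [e1]; exact t1
  · have t1 := toward hY b2.1 b2.2 hτ
    have e1 : (c₀.2 + h * (pt k).2 - c.2) * e.1 - (c₀.1 + h * (pt k).1 - c.1) * e.2 =
        (x.2 - c.2) * e.1 - (x.1 - c.1) * e.2 +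
        τ * (h * ((pt k).1 * (-(τ * e.2)) + (pt k).2 * (τ * e.1)) -
          (D1 * (-(τ * e.2)) + D2 * (τ * e.1))) := by
      have : τ * (h * ((pt k).1 * (-(τ * e.2)) + (pt k).2 * (τ * e.1)) -
          (D1 * (-(τ * e.2)) + D2 * (τ * e.1))) = τ ^ 2 * (h * ((pt k).2 * e.1 - (pt k).1 * e.2) -
          (D2 * e.1 - D1 * e.2)) := by ring
      rw [this, hτ2, hD1, hD2]; ring
    rw [e1]; exact t1

/-- The greedy argument. -/
lemma greedy (side : Set (ℝ × ℝ) → ℝ) (n : ℕ) : ∀ F : Finset (Set (ℝ × ℝ)), F.card = n →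
    (∀ Q ∈ F, IsSquare Q (side Q)) →
    (∀ Q ∈ F, ∀ R ∈ F, Q ≠ R → (Q ∩ R).Nonempty →
      10.5 * side Q ≤ side R ∨ 10.5 * side R ≤ side Q) →
    ∃ T : Finset (Set (ℝ × ℝ)), T ⊆ F ∧ (T : Set (Set (ℝ × ℝ))).PairwiseDisjoint id ∧
      ∃ P : Finset (ℝ × ℝ), P.card ≤ 6 * T.card ∧ ∀ Q ∈ F, ∃ p ∈ P, p ∈ Q := by
  classical
  induction n using Nat.strong_induction_on with
  | _ n ih =>
    intro F hn hF hsep
    rcases F.eq_empty_or_nonempty with rfl | hne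
    · exact ⟨∅, by simp, by simp, ∅, by simp, by simp⟩
    obtain ⟨Q₀, hQ₀, hmin⟩ := F.exists_min_image side hne
    obtain ⟨hs₀, c₀, e₀, he₀, hQe⟩ := hF Q₀ hQ₀
    have hc₀ : c₀ ∈ Q₀ := by
      rw [hQe]
      constructor <;> · simp; linarith
    obtain ⟨F', hF'⟩ : ∃ F', F' = F.filter (fun Q => Disjoint Q₀ Q) := ⟨_, rfl⟩
    have hsub : F' ⊆ F := by rw [hF']; exact Finset.filter_subset _ _
    have hlt : F'.card < n := by
      rw [← hn]
      refine Finset.card_lt_card ⟨hsub, fun hc => ?_⟩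
      have := hc hQ₀
      rw [hF', Finset.mem_filter] at this
      exact (Set.not_disjoint_iff.mpr ⟨c₀, hc₀, hc₀⟩) this.2
    obtain ⟨T, hT, hTd, P, hP, hPh⟩ := ih F'.card hlt F' rfl (fun Q hQ => hF Q (hsub hQ))
      (fun Q hQ R hR => hsep Q (hsub hQ) R (hsub hR))
    have hQT : Q₀ ∉ T := by
      intro hc
      have := hT hc
      rw [hF', Finset.mem_filter] at this
      exact (Set.not_disjoint_iff.mpr ⟨c₀, hc₀, hc₀⟩) this.2
    refine ⟨insert Q₀ T, ?_, ?_,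
      P ∪ insert c₀ ((Finset.univ : Finset (Fin 5)).image
        (fun k => (c₀.1 + side Q₀ / 2 * (pt k).1, c₀.2 + side Q₀ / 2 * (pt k).2))), ?_, ?_⟩
    · intro Q hQ
      rcases Finset.mem_insert.mp hQ with rfl | hQ
      · exact hQ₀
      · exact hsub (hT hQ)
    · rw [Finset.coe_insert]
      refine hTd.insert ?_
      intro R hR _
      have := hT (Finset.mem_coe.mp hR)
      rw [hF', Finset.mem_filter] at this
      exact this.2
    · rw [Finset.card_insert_of_notMem hQT]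
      have c1 := Finset.card_union_le P (insert c₀ ((Finset.univ : Finset (Fin 5)).image
        (fun k => (c₀.1 + side Q₀ / 2 * (pt k).1, c₀.2 + side Q₀ / 2 * (pt k).2))))
      have c2 := Finset.card_insert_le c₀ ((Finset.univ : Finset (Fin 5)).image
        (fun k => (c₀.1 + side Q₀ / 2 * (pt k).1, c₀.2 + side Q₀ / 2 * (pt k).2)))
      have c3 : ((Finset.univ : Finset (Fin 5)).image
        (fun k => (c₀.1 + side Q₀ / 2 * (pt k).1, c₀.2 + side Q₀ / 2 * (pt k).2))).card ≤ 5 := by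
        refine Finset.card_image_le.trans ?_
        simp
      omega
    · intro Q hQ
      by_cases hd : Disjoint Q₀ Q
      · obtain ⟨p, hp, hpQ⟩ := hPh Q (by rw [hF', Finset.mem_filter]; exact ⟨hQ, hd⟩)
        exact ⟨p, Finset.mem_union_left _ hp, hpQ⟩
      by_cases heq : Q₀ = Q
      · exact ⟨c₀, Finset.mem_union_right _ (Finset.mem_insert_self _ _), heq ▸ hc₀⟩
      obtain ⟨x, hx₀, hx⟩ := Set.not_disjoint_iff.mp hd
      have hr : 10.5 * side Q₀ ≤ side Q := by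
        rcases hsep Q₀ hQ₀ Q hQ heq ⟨x, hx₀, hx⟩ with g | g
        · exact g
        · have := hmin Q hQ
          have := (hF Q hQ).1
          linarith
      obtain ⟨k, hk⟩ := hit hs₀ he₀ hQe (hF Q hQ) hr hx₀ hx
      exact ⟨_, Finset.mem_union_right _ (Finset.mem_insert_of_mem
        (Finset.mem_image.mpr ⟨k, Finset.mem_univ _, rfl⟩)), hk⟩

/-- **Separated scales.** Let `F` be a finite family of squares in the plane (any orientations)
such that of any two different members that meet one has side at least `10.5` times the side of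
the other. Then `τ(F) ≤ 6 ν(F)`. -/
theorem result (F : Finset (Set (ℝ × ℝ))) (side : Set (ℝ × ℝ) → ℝ)
    (hF : ∀ Q ∈ F, IsSquare Q (side Q))
    (hsep : ∀ Q ∈ F, ∀ R ∈ F, Q ≠ R → (Q ∩ R).Nonempty →
      10.5 * side Q ≤ side R ∨ 10.5 * side R ≤ side Q) :
    tau F ≤ 6 * nu F := by
  obtain ⟨T, hT, hTd, P, hP, hPh⟩ := greedy side F.card F rfl hF hsep
  have h1 : tau F ≤ P.card := Nat.sInf_le ⟨P, rfl, hPh⟩
  have h2 : T.card ≤ nu F := by
    refine le_csSup ⟨F.card, ?_⟩ ⟨T, hT, rfl, hTd⟩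
    rintro n ⟨T', hT', rfl, -⟩
    exact Finset.card_le_card hT'
  omega

end Pool.Agent.Results.MP_cfdc1c_co.SeparatedScales
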